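import Mathlib

set_option autoImplicit false

namespace Pool.Agent.Lib.MP_081fbf_lc

/-- One rewrite step of the system `T` on strings over the letters `a = 0`, `b = 1`, `c = 2`,
`d = 3`. -/
def Step (T : Set (List (Fin 4) × List (Fin 4))) (x y : List (Fin 4)) : Prop :=
  ∃ u v l r : List (Fin 4), (l, r) ∈ T ∧ x = u ++ l ++ v ∧ y = u ++ r ++ v

/-- The strict rules `ad → db`, `a → bbb`, `d → ε`, `a → ε`, `bc → cdd`, `ac → bbcd`. -/
def strictRules : Set (List (Fin 4) × List (Fin 4)) :=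
  {([0, 3], [3, 1]), ([0], [1, 1, 1]), ([3], []), ([0], []), ([1, 2], [2, 3, 3]),
    ([0, 2], [1, 1, 2, 3])}

/-- The non-strict rules `bdb → ad`, `ad → bdb`. -/
def weakRules : Set (List (Fin 4) × List (Fin 4)) :=
  {([1, 3, 1], [0, 3]), ([0, 3], [1, 3, 1])}

end Pool.Agent.Lib.MP_081fbf_lc
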