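import Pool.Agent.Lib.MP_081fbf_lc.Defs

set_option autoImplicit false

namespace Pool.Agent.Lib.MP_081fbf_lc

/-- action of a letter on the state (value of the current block, the same value ignoring leading
`d`s, sum over the blocks to the right) -/
def act (i : Fin 4) (p : ℕ × ℕ × ℕ) : ℕ × ℕ × ℕ :=
  if i = 0 then (p.1 + 4, p.1 + 4, p.2.2)
  else if i = 1 then (p.1 + 1, p.1 + 1, p.2.2)
  else if i = 2 then (0, 0, p.2.2 + p.2.1)
  else (3 * p.1 + 1, p.2.1, p.2.2)

theorem act0 (p : ℕ × ℕ × ℕ) : act 0 p = (p.1 + 4, p.1 + 4, p.2.2) := rfl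
theorem act1 (p : ℕ × ℕ × ℕ) : act 1 p = (p.1 + 1, p.1 + 1, p.2.2) := rfl
theorem act2 (p : ℕ × ℕ × ℕ) : act 2 p = (0, 0, p.2.2 + p.2.1) := rfl
theorem act3 (p : ℕ × ℕ × ℕ) : act 3 p = (3 * p.1 + 1, p.2.1, p.2.2) := rfl

/-- the state of a string -/
def val (w : List (Fin 4)) : ℕ × ℕ × ℕ := w.foldr act (0, 0, 0)

theorem val_cons (i : Fin 4) (w : List (Fin 4)) : val (i :: w) = act i (val w) := rfl

theorem fin4 (i : Fin 4) : i = 0 ∨ i = 1 ∨ i = 2 ∨ i = 3 := by
  fin_cases i <;> simp

theorem val_le (w : List (Fin 4)) : (val w).2.1 ≤ (val w).1 := by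
  induction w with
  | nil => exact le_rfl
  | cons i w ih =>
    rw [val_cons]
    rcases fin4 i with rfl | rfl | rfl | rfl <;> simp only [act0, act1, act2, act3] <;> omega

/-- weak order on states -/
def GE (p q : ℕ × ℕ × ℕ) : Prop := q.1 ≤ p.1 ∧ q.2.1 ≤ p.2.1 ∧ q.2.2 ≤ p.2.2

/-- strict order on states -/
def GT (p q : ℕ × ℕ × ℕ) : Prop := GE p q ∧ ((q.1 < p.1 ∧ q.2.1 < p.2.1) ∨ q.2.2 < p.2.2)

theorem ge_ctx (u x y : List (Fin 4)) (h : GE (val x) (val y)) :
    GE (val (u ++ x)) (val (u ++ y)) := by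
  induction u with
  | nil => exact h
  | cons i u ih =>
    rw [List.cons_append, List.cons_append, val_cons, val_cons]
    unfold GE at ih ⊢
    rcases fin4 i with rfl | rfl | rfl | rfl <;> simp only [act0, act1, act2, act3] <;> omega

theorem gt_ctx (u x y : List (Fin 4)) (h : GT (val x) (val y)) :
    GT (val (u ++ x)) (val (u ++ y)) := by
  induction u with
  | nil => exact h
  | cons i u ih =>
    rw [List.cons_append, List.cons_append, val_cons, val_cons]
    unfold GT GE at ih ⊢
    rcases fin4 i with rfl | rfl | rfl | rfl <;> simp only [act0, act1, act2, act3] <;> omega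

/-- the lexicographic measure -/
def mu (w : List (Fin 4)) : ℕ ×ₗ ℕ := toLex ((val w).2.1 + (val w).2.2, w.count 3)

theorem mu_lt_of_gt {x y : List (Fin 4)} (h : GT (val x) (val y)) : mu y < mu x := by
  unfold GT GE at h
  rw [mu, mu, Prod.Lex.toLex_lt_toLex]
  left
  show (val y).2.1 + (val y).2.2 < (val x).2.1 + (val x).2.2
  omega

theorem mu_lt_of_ge {x y : List (Fin 4)} (h : GE (val x) (val y)) (h' : y.count 3 < x.count 3) :
    mu y < mu x := by
  unfold GE at h
  rw [mu, mu, Prod.Lex.toLex_lt_toLex]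
  show (val y).2.1 + (val y).2.2 < (val x).2.1 + (val x).2.2 ∨
    (val y).2.1 + (val y).2.2 = (val x).2.1 + (val x).2.2 ∧ y.count 3 < x.count 3
  omega

theorem strict_step {x y : List (Fin 4)} (h : Step strictRules x y) : mu y < mu x := by
  obtain ⟨u, v, l, r, hlr, rfl, rfl⟩ := h
  have hv := val_le v
  rw [List.append_assoc, List.append_assoc]
  simp only [strictRules, Set.mem_insert_iff, Set.mem_singleton_iff, Prod.mk.injEq] at hlr
  rcases hlr with ⟨rfl, rfl⟩ | ⟨rfl, rfl⟩ | ⟨rfl, rfl⟩ | ⟨rfl, rfl⟩ | ⟨rfl, rfl⟩ | ⟨rfl, rfl⟩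
  · refine mu_lt_of_gt (gt_ctx _ _ _ ?_)
    simp only [List.cons_append, List.nil_append, val_cons, act0, act1, act3, GT, GE]
    omega
  · refine mu_lt_of_gt (gt_ctx _ _ _ ?_)
    simp only [List.cons_append, List.nil_append, val_cons, act0, act1, GT, GE]
    omega
  · refine mu_lt_of_ge (ge_ctx _ _ _ ?_) (by simp)
    simp only [List.cons_append, List.nil_append, val_cons, act3, GE]
    omega
  · refine mu_lt_of_gt (gt_ctx _ _ _ ?_)
    simp only [List.cons_append, List.nil_append, val_cons, act0, GT, GE]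
    omega
  · refine mu_lt_of_gt (gt_ctx _ _ _ ?_)
    simp only [List.cons_append, List.nil_append, val_cons, act1, act2, act3, GT, GE]
    omega
  · refine mu_lt_of_gt (gt_ctx _ _ _ ?_)
    simp only [List.cons_append, List.nil_append, val_cons, act0, act1, act2, act3, GT, GE]
    omega

theorem val_ctx (u x y : List (Fin 4)) (h : val x = val y) : val (u ++ x) = val (u ++ y) := by
  induction u with
  | nil => exact h
  | cons i u ih => rw [List.cons_append, List.cons_append, val_cons, val_cons, ih]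

theorem weak_step {x y : List (Fin 4)} (h : Step weakRules x y) : mu y = mu x := by
  obtain ⟨u, v, l, r, hlr, rfl, rfl⟩ := h
  rw [List.append_assoc, List.append_assoc]
  have key : val ([1, 3, 1] ++ v) = val ([0, 3] ++ v) := by
    simp only [List.cons_append, List.nil_append, val_cons, act0, act1, act3, Prod.mk.injEq]
    refine ⟨by omega, by omega, trivial⟩
  simp only [weakRules, Set.mem_insert_iff, Set.mem_singleton_iff, Prod.mk.injEq] at hlr
  rcases hlr with ⟨rfl, rfl⟩ | ⟨rfl, rfl⟩
  · rw [mu, mu, val_ctx u _ _ key]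
    simp
  · rw [mu, mu, val_ctx u _ _ key]
    simp

theorem step_union {x y : List (Fin 4)} (h : Step (strictRules ∪ weakRules) x y) :
    Step strictRules x y ∨ Step weakRules x y := by
  obtain ⟨u, v, l, r, hlr | hlr, hx, hy⟩ := h
  · exact Or.inl ⟨u, v, l, r, hlr, hx, hy⟩
  · exact Or.inr ⟨u, v, l, r, hlr, hx, hy⟩

theorem main (x : ℕ → List (Fin 4)) (h : ∀ n, Step (strictRules ∪ weakRules) (x n) (x (n + 1))) :
    {n | Step strictRules (x n) (x (n + 1))}.Finite := by
  have hanti : Antitone fun n => mu (x n) := by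
    refine antitone_nat_of_succ_le fun n => ?_
    rcases step_union (h n) with h1 | h1
    · exact (strict_step h1).le
    · exact (weak_step h1).le
  obtain ⟨N, hN⟩ := WellFoundedLT.antitone_chain_condition hanti
  refine (Set.finite_lt_nat N).subset fun n hn => ?_
  by_contra hlt
  have hn' : N ≤ n := not_lt.1 hlt
  have e1 := hN n hn'
  have e2 := hN (n + 1) (hn'.trans (Nat.le_succ n))
  have e3 := strict_step hn
  rw [← e1, ← e2] at e3
  exact lt_irrefl _ e3

end Pool.Agent.Lib.MP_081fbf_lc
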